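import Pool.Agent.H964.CW.Stm
import Pool.Agent.H404.QC.TORB
import Pool.Agent.H81.QC.TORA

/-!
# TOR2: the torus, explicit form
-/

set_option autoImplicit false

namespace Pool.Agent.H289.CW

open Finset Pool.Agent.H964.QC Pool.Agent.H964.CW Pool.Agent.H404.QC

theorem vma_le {M : ℕ} [NeZero M] (k : ZMod M) (y : ℤ) (h : (y : ZMod M) = k) :
    |k.valMinAbs| ≤ |y| := by
  have h1 := ZMod.natAbs_min_of_le_div_two M k.valMinAbs y (by rw [ZMod.coe_valMinAbs, h])
    (ZMod.natAbs_valMinAbs_le k)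
  rw [Int.abs_eq_natAbs, Int.abs_eq_natAbs]
  exact_mod_cast h1

theorem q1_rng {M : ℕ} [NeZero M] : ∀ (n : ℕ) (k : ZMod M), q1 M n k ≠ 0 →
    |k.valMinAbs| ≤ n := by
  intro n
  induction n with
  | zero =>
    intro k hk
    have : k = 0 := by
      by_contra hne
      apply hk
      simp [q1, hne]
    rw [this]
    simp
  | succ n ih =>
    intro k hk
    have h2 : q1 M n (k - 1) ≠ 0 ∨ q1 M n (k + 1) ≠ 0 := by
      by_contra hcon
      push Not at hcon
      apply hk
      rw [q1, hcon.1, hcon.2]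
      norm_num
    rcases h2 with h2 | h2
    · have h3 := ih _ h2
      have h4 := vma_le k ((k - 1).valMinAbs + 1) (by
        push_cast
        ring)
      have h5 := abs_add_le (k - 1).valMinAbs 1
      rw [abs_one] at h5
      push_cast
      omega
    · have h3 := ih _ h2
      have h4 := vma_le k ((k + 1).valMinAbs + -1) (by
        push_cast
        ring)
      have h5 := abs_add_le (k + 1).valMinAbs (-1)
      rw [abs_neg, abs_one] at h5
      push_cast
      omega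

theorem q1_step {M : ℕ} [NeZero M] (n t : ℕ) (a b : ZMod M) (h : q1 M n (b - a) ≠ 0)
    (ha : |a.valMinAbs| ≤ t) : |b.valMinAbs| ≤ ((t + n : ℕ) : ℤ) := by
  have h1 := q1_rng n _ h
  have h2 := vma_le b (a.valMinAbs + (b - a).valMinAbs) (by
    push_cast
    ring)
  have h3 := abs_add_le a.valMinAbs (b - a).valMinAbs
  push_cast
  omega

theorem t_TOR2 : S_TOR2 := by
  obtain ⟨C, hC, h⟩ := Pool.Agent.H81.QC.t_TORA
  refine ⟨C ^ 2 + 2, by nlinarith, fun N0 M _ hM => ?_⟩
  obtain ⟨a1, a2, a3, a4, a5, a6, a7, a8⟩ := h N0 M hM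
  have h2 : 2 ∣ M := ⟨2 * N0 + 2, by omega⟩
  obtain ⟨W0, hWK, hWd, hWc⟩ := exists_walk C hC N0 M h2 a1 a2 a3 a4 a5 a6 a7 a8
  obtain ⟨lft, hl1, hl2⟩ := exists_lft (ph M) N0 (ph_inj hM)
  let W : Wlk (ZMod M × ZMod M) (C ^ 2 + 2) N0 :=
    { W0 with
      cls := fun t x => W0.cls t x ∧ |x.1.valMinAbs| ≤ t ∧ |x.2.valMinAbs| ≤ t
      K_low := fun n t x y h1 hn hx hy => W0.K_low n t x y h1 hn hx.1 hy.1
      K_cls := fun n t x y hx hK => by
        refine ⟨W0.K_cls n t x y hx.1 hK, ?_⟩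
        have hK' : q1 M n (y.1 - x.1) * q1 M n (y.2 - x.2) ≠ 0 := by
          have h3 : W0.K n x y ≠ 0 := hK
          rw [hWK] at h3
          exact h3
        exact ⟨q1_step n t _ _ (left_ne_zero_of_mul hK') hx.2.1,
          q1_step n t _ _ (right_ne_zero_of_mul hK') hx.2.2⟩ }
  have hWK' : W.K = KT M := hWK
  have hWd' : W.d = dT := hWd
  refine ⟨W, ph M, lft, ?_, hl1, hl2, ?_, ?_, ?_⟩
  · refine ⟨hM, fun n x y => ?_, fun x => ?_, fun t x hx => hx.2, fun t x y hx hy => ?_⟩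
    · rw [hWK']
      rfl
    · rw [hWd']
      rfl
    · have hx1 : par h2 x.1 = t ∧ par h2 x.2 = t := by
        have h3 := hx.1
        rw [hWc] at h3
        exact h3
      have hy1 : par h2 y.1 = t ∧ par h2 y.2 = t := by
        have h3 := hy.1
        rw [hWc] at h3
        exact h3
      obtain ⟨i, hi, -⟩ := par_diff h2 x.1 y.1 (hx1.1.trans hy1.1.symm)
      obtain ⟨j, hj, -⟩ := par_diff h2 x.2 y.2 (hx1.2.trans hy1.2.symm)
      exact ⟨i, j, hi, hj⟩
  · intro z v
    rw [hWK']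
    exact K_one z v
  · have h3 : W0.cls 0 (ph M 0) := by
      rw [hWc]
      simp [ph]
    refine ⟨h3, ?_, ?_⟩ <;> simp [ph]
  · rw [hWd']
    simp [ph, dT]

end Pool.Agent.H289.CW
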